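import Pool.Agent.Lib.MP_458f0b_nt.FF.Even

/-! A residue class modulo `E ^ 4` without irreducible polynomials of small degree. -/

open Polynomial Finset

namespace Pool.Agent.Lib.MP_458f0b_nt.FF

variable {F : Type*} [Field F] [Finite F]

/-- the least common multiple of all polynomials of degree at most `k` -/
noncomputable def LL (F : Type*) [Field F] (k : ℕ) : F[X] :=
  ∏ i ∈ Icc 1 k, (X ^ Nat.card F ^ i - X)

lemma monic_factor {i : ℕ} (hi : 1 ≤ i) : (X ^ Nat.card F ^ i - X : F[X]).Monic ∧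
    (X ^ Nat.card F ^ i - X : F[X]).natDegree = Nat.card F ^ i := by
  have h1 : 1 < Nat.card F ^ i := Nat.one_lt_pow (by omega) Finite.one_lt_card
  have h2 : (X : F[X]).degree < (X ^ Nat.card F ^ i : F[X]).degree := by
    rw [degree_X_pow, degree_X]; exact_mod_cast h1
  refine ⟨(monic_X_pow _).sub_of_left h2, ?_⟩
  rw [natDegree_sub_eq_left_of_natDegree_lt (by simpa using h1), natDegree_X_pow]

lemma monic_LL (k : ℕ) : (LL F k).Monic :=
  monic_prod_of_monic _ _ fun _ hi => (monic_factor (mem_Icc.1 hi).1).1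

lemma natDegree_LL (k : ℕ) : (LL F k).natDegree = ∑ i ∈ Icc 1 k, Nat.card F ^ i := by
  rw [LL, natDegree_prod_of_monic _ _ fun _ hi => (monic_factor (mem_Icc.1 hi).1).1]
  exact Finset.sum_congr rfl fun i hi => (monic_factor (mem_Icc.1 hi).1).2

omit [Finite F] in
lemma geom (q : ℝ) (k : ℕ) : (q - 1) * ∑ i ∈ Icc 1 k, q ^ i = q ^ (k + 1) - q := by
  induction k with
  | zero => simp
  | succ k ih => rw [Finset.sum_Icc_succ_top (by omega), mul_add, ih]; ring

lemma dvd_LL (k : ℕ) (w : F[X]) : w ≠ 0 → w.natDegree ≤ k → w ∣ LL F k := by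
  classical
  refine UniqueFactorizationMonoid.induction_on_coprime
    (P := fun w : F[X] => w ≠ 0 → w.natDegree ≤ k → w ∣ LL F k) w ?_ ?_ ?_ ?_
  · intro h; exact absurd rfl h
  · intro x hx _ _; exact hx.dvd
  · intro π v hπ _ hd
    have hi := hπ.irreducible
    have hpos := hi.natDegree_pos
    rw [natDegree_pow] at hd
    have h1 : π ^ v ∣ ∏ l ∈ Icc 1 v, (X ^ Nat.card F ^ (l * π.natDegree) - X : F[X]) := by
      have : π ^ v = ∏ _l ∈ Icc 1 v, π := by simp
      rw [this]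
      exact Finset.prod_dvd_prod_of_dvd _ _ fun l _ =>
        hi.natDegree_dvd_iff_dvd_X_pow_card_pow_sub_X.1 (Dvd.intro_left l rfl)
    refine h1.trans ?_
    rw [← Finset.prod_image (s := Icc 1 v) (g := fun l => l * π.natDegree)
      (f := fun i => (X ^ Nat.card F ^ i - X : F[X]))
      (fun x _ y _ h => Nat.eq_of_mul_eq_mul_right hpos h)]
    refine Finset.prod_dvd_prod_of_subset _ _ _ fun i hi' => ?_
    obtain ⟨l, hl, rfl⟩ := mem_image.1 hi'
    rw [mem_Icc] at hl ⊢
    exact ⟨Nat.mul_pos hl.1 hpos, (Nat.mul_le_mul_right _ hl.2).trans hd⟩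
  · intro x y hxy hx hy h0 hd
    have hx0 : x ≠ 0 := left_ne_zero_of_mul h0
    have hy0 : y ≠ 0 := right_ne_zero_of_mul h0
    rw [natDegree_mul hx0 hy0] at hd
    exact hxy.mul_dvd (hx hx0 (by omega)) (hy hy0 (by omega))

omit [Finite F] in
lemma exists_small_factor {J : F[X]} (h0 : J ≠ 0) (hu : ¬ IsUnit J) (hi : ¬ Irreducible J) :
    ∃ π : F[X], ¬ IsUnit π ∧ π ≠ 0 ∧ π ∣ J ∧ 2 * π.natDegree ≤ J.natDegree := by
  obtain h | ⟨a, b, ha, hb, rfl⟩ := irreducible_or_factor hu
  · exact absurd h hi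
  have ha0 : a ≠ 0 := left_ne_zero_of_mul h0
  have hb0 : b ≠ 0 := right_ne_zero_of_mul h0
  rw [natDegree_mul ha0 hb0]
  rcases le_total a.natDegree b.natDegree with h | h
  · exact ⟨a, ha, ha0, Dvd.intro _ rfl, by omega⟩
  · exact ⟨b, hb, hb0, Dvd.intro_left _ rfl, by omega⟩

omit [Finite F] in
lemma not_irreducible_of_dvd {π P : F[X]} (hu : ¬ IsUnit π) (hd : π ∣ P)
    (hlt : π.natDegree < P.natDegree) : ¬ Irreducible P := by
  intro hP
  obtain ⟨c, rfl⟩ := hd
  rcases hP.isUnit_or_isUnit rfl with h | h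
  · exact hu h
  · rw [natDegree_mul (left_ne_zero_of_mul hP.ne_zero) h.ne_zero,
      natDegree_eq_zero_of_isUnit h] at hlt
    omega

section two
variable [CharP F 2]

lemma exists_sq_derivative (G : F[X]) : ∃ w : F[X], derivative G = w ^ 2 := by
  have : Fact (Nat.Prime 2) := ⟨Nat.prime_two⟩
  have h0 : derivative (derivative G) = 0 := by
    ext n
    rw [coeff_derivative, coeff_derivative, coeff_zero]
    have h1 : (((n + 1 + 1) * (n + 1) : ℕ) : F) = 0 := by
      rw [CharP.cast_eq_zero_iff F 2, mul_comm]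
      exact (Nat.even_mul_succ_self (n + 1)).two_dvd
    push_cast at h1 ⊢
    rw [mul_assoc, h1, mul_zero]
  refine ⟨(contract 2 (derivative G)).map (frobeniusEquiv F 2).symm, ?_⟩
  rw [← map_frobenius_expand, ← map_expand, Polynomial.map_map, expand_contract 2 h0 two_ne_zero]
  have : (frobenius F 2).comp ((frobeniusEquiv F 2).symm : F →+* F) = RingHom.id F := by
    ext x; simp
  rw [this, Polynomial.map_id]

lemma exists_fourth_root (c : F) : ∃ κ : F, κ ^ 4 = c := by
  obtain ⟨a, ha⟩ := isSquare_of_charTwo' c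
  obtain ⟨b, hb⟩ := isSquare_of_charTwo' a
  exact ⟨b, by rw [ha, hb]; ring⟩

/-- The parity step: for `q = 2 ^ s` with `s` odd and `E` monic of odd degree, an irreducible `J`
never gives an irreducible `B ^ 4 + J * E ^ 4`. -/
lemma parity_step (s : ℕ) (hs : Nat.card F = 2 ^ s) (hso : Odd s) (B J E : F[X]) (hJ : J.Monic)
    (hE : E.Monic) (hEo : Odd E.natDegree) (hJi : Irreducible J) (hB0 : B ≠ 0)
    (hB : ∀ w : F[X], w ≠ 0 → 2 * w.natDegree + 1 ≤ J.natDegree → w ∣ B)
    (hdeg : 4 * B.natDegree + J.natDegree ≤ 4 * E.natDegree + 1) :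
    ¬ Irreducible (B ^ 4 + J * E ^ 4) := by
  intro hP
  have hg : 0 < J.natDegree := hJi.natDegree_pos
  obtain ⟨w, hw⟩ := exists_sq_derivative J
  have hw0 : w ≠ 0 := by
    rintro rfl
    have hsep : J.Separable := PerfectField.separable_of_irreducible hJi
    rw [separable_iff_derivative_ne_zero hJi] at hsep
    exact hsep (by simpa using hw)
  have hwd : 2 * w.natDegree + 1 ≤ J.natDegree := by
    have h1 := natDegree_derivative_le J
    rw [hw, natDegree_pow] at h1
    omega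
  obtain ⟨k, rfl⟩ := hB w hw0 hwd
  have hk0 : k ≠ 0 := right_ne_zero_of_mul hB0
  rw [natDegree_mul hw0 hk0] at hdeg
  have hHm : (J * E ^ 4).Monic := hJ.mul (hE.pow 4)
  have hHn : (J * E ^ 4).natDegree = J.natDegree + 4 * E.natDegree := by
    rw [hJ.natDegree_mul (hE.pow 4), hE.natDegree_pow]
  have hBn : ((w * k) ^ 4).natDegree < (J * E ^ 4).natDegree := by
    rw [hHn, natDegree_pow, natDegree_mul hw0 hk0]
    obtain ⟨r, hr⟩ := hEo
    omega
  have hPm : ((w * k) ^ 4 + J * E ^ 4).Monic := hHm.add_of_right (degree_lt_degree hBn)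
  have hPn : ((w * k) ^ 4 + J * E ^ 4).natDegree = J.natDegree + 4 * E.natDegree := by
    rw [natDegree_add_eq_right_of_natDegree_lt hBn, hHn]
  have h := core_even s hs J E w k J.natDegree _ _ _ hJ hE hg hw (by omega)
    (frobSign_irreducible hJ hJi) (frobSign_irreducible hPm hP) hPn
  rw [hPn, ← pow_add, Odd.neg_one_pow (hso.mul hEo), Even.neg_one_pow] at h
  · exact absurd h (by decide)
  · exact ⟨J.natDegree - 1 + 2 * E.natDegree, by omega⟩

theorem no_irreducible (s : ℕ) (hs : Nat.card F = 2 ^ s) (hso : Odd s) (k : ℕ) (hk : 1 ≤ k)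
    (E : F[X]) (hE : E.Monic) (hEo : Odd E.natDegree)
    (hdeg : (LL F k).natDegree + k ≤ E.natDegree) (P : F[X]) (hd : E ^ 4 ∣ P - LL F k ^ 4)
    (hP : P.natDegree ≤ 4 * E.natDegree + (2 * k + 1)) : ¬ Irreducible P := by
  obtain ⟨j, hj⟩ := hd
  have hPj : P = LL F k ^ 4 + j * E ^ 4 := by linear_combination hj
  rcases eq_or_ne j 0 with rfl | hj0
  · rw [hPj, zero_mul, add_zero]
    exact not_irreducible_pow (by norm_num)
  have hL := monic_LL (F := F) k
  have hHn : (j * E ^ 4).natDegree = j.natDegree + 4 * E.natDegree := by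
    rw [natDegree_mul hj0 (hE.pow 4).ne_zero, hE.natDegree_pow]
  have hPn : P.natDegree = j.natDegree + 4 * E.natDegree := by
    rw [hPj, natDegree_add_eq_right_of_natDegree_lt, hHn]
    rw [hHn, natDegree_pow]; omega
  have hjd : j.natDegree ≤ 2 * k + 1 := by omega
  have hc : j.leadingCoeff ≠ 0 := leadingCoeff_ne_zero.2 hj0
  obtain ⟨κ, hκ⟩ := exists_fourth_root j.leadingCoeff⁻¹
  have hκ0 : κ ≠ 0 := by
    rintro rfl
    exact inv_ne_zero hc (by rw [← hκ]; simp)
  have hJm : (j * C j.leadingCoeff⁻¹).Monic := monic_mul_leadingCoeff_inv hj0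
  have hJn : (j * C j.leadingCoeff⁻¹).natDegree = j.natDegree :=
    natDegree_mul_leadingCoeff_inv _ hj0
  have hu : IsUnit (C j.leadingCoeff⁻¹) := isUnit_C.2 (Ne.isUnit (inv_ne_zero hc))
  have hscale : P * C j.leadingCoeff⁻¹ =
      (C κ * LL F k) ^ 4 + j * C j.leadingCoeff⁻¹ * E ^ 4 := by
    rw [hPj, mul_pow, ← C_pow, hκ]; ring
  by_cases hju : IsUnit j
  · rw [← irreducible_mul_isUnit hu, hscale]
    have h1 : j * C j.leadingCoeff⁻¹ = 1 :=
      hJm.natDegree_eq_zero.1 (by rw [hJn, natDegree_eq_zero_of_isUnit hju])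
    have h2 : (2 : F[X]) = 0 := by
      rw [show (2 : F[X]) = C 2 from rfl, two_eq_zero', map_zero]
    have h3 : (C κ * LL F k) ^ 4 + 1 * E ^ 4 = (C κ * LL F k + E) ^ 4 := by
      linear_combination (-(2 * (C κ * LL F k) ^ 3 * E + 3 * (C κ * LL F k) ^ 2 * E ^ 2 +
        2 * (C κ * LL F k) * E ^ 3)) * h2
    rw [h1, h3]
    exact not_irreducible_pow (by norm_num)
  by_cases hji : Irreducible j
  · rw [← irreducible_mul_isUnit hu, hscale]
    refine parity_step s hs hso _ _ E hJm hE hEo ((irreducible_mul_isUnit hu).2 hji)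
      (mul_ne_zero (C_ne_zero.2 hκ0) hL.ne_zero) (fun w hw0 hwd => ?_) ?_
    · exact (dvd_LL k w hw0 (by omega)).mul_left _
    · rw [natDegree_C_mul hκ0, hJn]; omega
  · obtain ⟨π, hπu, hπ0, hπj, hπd⟩ := exists_small_factor hj0 hju hji
    refine not_irreducible_of_dvd hπu ?_ ?_
    · rw [hPj]
      exact dvd_add ((dvd_LL k π hπ0 (by omega)).trans (dvd_pow_self _ (by norm_num)))
        (hπj.mul_right _)
    · obtain ⟨r, hr⟩ := hEo
      omega

end two

end Pool.Agent.Lib.MP_458f0b_nt.FF
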