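import Pool.Agent.Lib.MP_458f0b_nt.FF.Sign

/-! Characteristic two: the sign of Frobenius on the roots of `B ^ 4 + G * E ^ 4`. -/

open Polynomial Finset

namespace Pool.Agent.Lib.MP_458f0b_nt.FF

section abstract
variable {R K : Type*} [CommRing R] [IsDomain R] [Field K] [CharP K 2]

lemma two_eq_zero' : (2 : K) = 0 := by
  have := CharP.cast_eq_zero K 2
  exact_mod_cast this

omit [IsDomain R] in
lemma res_add_four (red : R →+* K) (hker : ∀ x, red x = 0 → 2 ∣ x) (H Y U : R[X]) (w : K[X])
    (n m : ℕ) (hH : H.coeff n = 1) (hHn : H.natDegree ≤ n) (hY : Y.natDegree < n)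
    (hU : U.natDegree ≤ m) (hw : U.map red = w ^ 2) :
    ∃ z, resultant (H + C 4 * Y) U n m = resultant H U n m + 8 * z := by
  set Ψ : R[X] := resultant (H.map C + C X * Y.map C) (U.map C) n m with hΨ
  have hev : ∀ s : R, Ψ.eval s = resultant (H + C s * Y) U n m := by
    intro s
    have h := resultant_map_map (H.map C + C X * Y.map C) (U.map C) n m (evalRingHom s)
    have hc : (evalRingHom s).comp (C : R →+* R[X]) = RingHom.id R := by ext; simp
    rw [coe_evalRingHom, ← hΨ] at h
    rw [← h, Polynomial.map_add, Polynomial.map_mul, Polynomial.map_map, Polynomial.map_map,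
      Polynomial.map_map, hc, map_C, Polynomial.map_id, Polynomial.map_id, Polynomial.map_id,
      coe_evalRingHom, eval_X]
  have hsq : ∃ T : K[X], Ψ.map red = T * T := by
    have h := resultant_map_map (H.map C + C X * Y.map C) (U.map C) n m (mapRingHom red)
    have hc : (mapRingHom red).comp (C : R →+* R[X]) = (C : K →+* K[X]).comp red := by
      ext; simp
    rw [coe_mapRingHom, ← hΨ] at h
    set f : K[X][X] := (H.map C + C X * Y.map C).map (mapRingHom red) with hf
    have hU2 : (U.map C).map (mapRingHom red) = w.map C * w.map C := by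
      rw [Polynomial.map_map, hc, ← Polynomial.map_map, hw, ← Polynomial.map_mul, sq]
    have hd : (w.map (C : K →+* K[X])).natDegree + (w.map (C : K →+* K[X])).natDegree ≤ m := by
      rw [natDegree_map_eq_of_injective C_injective]
      have h1 : (U.map red).natDegree ≤ m := natDegree_map_le.trans hU
      rw [hw, natDegree_pow] at h1
      omega
    have hfn : f.natDegree ≤ n := by
      refine natDegree_map_le.trans ((natDegree_add_le _ _).trans (max_le ?_ ?_))
      · exact natDegree_map_le.trans hHn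
      · exact (natDegree_C_mul_le _ _).trans (natDegree_map_le.trans hY.le)
    have hf1 : f.coeff n = 1 := by
      simp [hf, hH, coeff_eq_zero_of_natDegree_lt hY]
    obtain ⟨c, hc⟩ := Nat.exists_eq_add_of_le hd
    rw [hU2, hc, resultant_add_right_deg _ _ _ _ _ natDegree_mul_le, hf1, one_pow, one_mul,
      resultant_mul_right _ _ _ _ hfn] at h
    exact ⟨_, h.symm⟩
  obtain ⟨T, hT⟩ := hsq
  have hder : red (Ψ.derivative.eval 0) = 0 := by
    have h1 : (Ψ.derivative).map red = 0 := by
      rw [← derivative_map, hT, derivative_mul, mul_comm (derivative T), ← two_mul]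
      have : (2 : K[X]) = 0 := by
        rw [show (2 : K[X]) = C 2 from rfl, two_eq_zero', map_zero]
      rw [this, zero_mul]
    rw [← coeff_zero_eq_eval_zero, ← coeff_map, h1, coeff_zero]
  obtain ⟨u, hu⟩ := hker _ hder
  obtain ⟨k, hk⟩ := binomExpansion Ψ 0 4
  refine ⟨u + 2 * k, ?_⟩
  rw [zero_add, hev, hev, hu] at hk
  rw [hk, map_zero, zero_mul, add_zero]; ring

omit [IsDomain R] in
lemma prod_add_four {n : ℕ} (U g : Fin n → R) :
    ∃ k, ∏ i, (U i + 4 * g i) =
      ∏ i, U i + 4 * (∑ i, (∏ l ∈ univ.erase i, U l) * g i) + 16 * k := by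
  obtain ⟨k, hk⟩ := binomExpansion (∏ i, (C (U i) + C (g i) * X)) 0 4
  refine ⟨k, ?_⟩
  rw [derivative_prod_finset] at hk
  simp only [eval_prod, eval_finsetSum, eval_mul, eval_add, eval_C, eval_X, derivative_add,
    derivative_C, derivative_mul, derivative_X, zero_mul, mul_zero, add_zero, zero_add,
    mul_one] at hk
  simp only [mul_comm (4 : R) (g _)]
  rw [hk]; ring

lemma pow_two_pow_of_sq (x : K) (e : ℕ) (h : x ^ 2 + x = e) (i : ℕ) :
    x ^ 2 ^ i = x + (i * e : ℕ) := by
  have h2 : (2 : K) = 0 := two_eq_zero'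
  have hsq : ∀ m : ℕ, (m : K) ^ 2 = m := by
    intro m
    induction m with
    | zero => simp
    | succ m ih => push_cast; linear_combination ih + (m : K) * h2
  induction i with
  | zero => simp
  | succ i ih =>
    rw [pow_succ, pow_mul, ih]
    have := hsq (i * e)
    push_cast at this ⊢
    linear_combination h + this + (x * (i * e) - x) * h2

lemma sign_final (red : R →+* K) (hker : ∀ x, red x = 0 → 2 ∣ x) (h2 : (2 : R) ≠ 0)
    (σ : R →+* R) (s : ℕ) (hσ : ∀ x, red (σ x) = red x ^ 2 ^ s) (δ v S z : R) (ε₁ ε₂ : ℤˣ)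
    (e : ℕ) (h1 : σ δ = ((ε₁ : ℤ) : R) * δ) (h3 : σ v = ((ε₂ : ℤ) : R) * v)
    (h4 : δ ^ 2 = v ^ 2 + 4 * S + 8 * z) (h5 : red S = red δ ^ 2 * e) (h6 : red δ ≠ 0) :
    ε₁ * ε₂ = (-1) ^ (s * e) := by
  have hK : (2 : K) = 0 := two_eq_zero'
  have hdv : red δ = red v := by
    have h := congrArg red h4
    simp only [map_add, map_mul, map_pow, map_ofNat] at h
    have : (red δ - red v) ^ 2 = 0 := by
      linear_combination h + (red v ^ 2 - red δ * red v + 2 * red S + 4 * red z) * hK
    exact sub_eq_zero.1 (pow_eq_zero_iff (two_ne_zero) |>.1 this)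
  obtain ⟨t, ht⟩ := hker (δ - v) (by rw [map_sub, hdv, sub_self])
  have hδ : δ = v + 2 * t := by linear_combination ht
  have h7 : v * t + t ^ 2 = S + 2 * z := by
    apply mul_left_cancel₀ (mul_ne_zero h2 h2)
    rw [hδ] at h4
    linear_combination h4
  have hv : red v ≠ 0 := hdv ▸ h6
  have h8 : (red t / red v) ^ 2 + red t / red v = e := by
    have h := congrArg red h7
    simp only [map_add, map_mul, map_pow, map_ofNat] at h
    rw [h5, hdv] at h
    field_simp
    linear_combination h + red z * hK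
  have h9 := pow_two_pow_of_sq _ e h8 s
  have hm1 : (-1 : K) = 1 := by linear_combination -hK
  have hvfix : red v ^ 2 ^ s = red v := by
    rw [← hσ, h3]
    rcases Int.units_eq_one_or ε₂ with rfl | rfl
    · simp
    · simp only [Units.val_neg, Units.val_one, Int.cast_neg, Int.cast_one, map_mul, map_neg,
        map_one, hm1, one_mul]
  have hσt : 2 * σ t = ((ε₁ : ℤ) : R) * (v + 2 * t) - ((ε₂ : ℤ) : R) * v := by
    have := congrArg σ hδ
    rw [h1, map_add, map_mul, h3, map_ofNat, hδ] at this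
    linear_combination -this
  rw [div_pow, hvfix, ← hσ] at h9
  have hpar : ∀ c : K, red (σ t) = red t + c * red v → ((s * e : ℕ) : K) = c := by
    intro c hc
    rw [hc] at h9
    field_simp at h9
    apply mul_left_cancel₀ hv
    linear_combination -h9
  have heven : ((s * e : ℕ) : K) = 0 → (-1 : ℤˣ) ^ (s * e) = 1 := by
    intro h
    rw [CharP.cast_eq_zero_iff K 2] at h
    exact Even.neg_one_pow (even_iff_two_dvd.2 h)
  have hodd : ((s * e : ℕ) : K) = 1 → (-1 : ℤˣ) ^ (s * e) = -1 := by
    intro h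
    refine Odd.neg_one_pow (Nat.not_even_iff_odd.1 fun h' => ?_)
    rw [even_iff_two_dvd, ← CharP.cast_eq_zero_iff K 2, h] at h'
    exact one_ne_zero h'
  rcases Int.units_eq_one_or ε₁ with rfl | rfl <;> rcases Int.units_eq_one_or ε₂ with rfl | rfl
  · have : σ t = t := mul_left_cancel₀ h2 (by rw [hσt]; simp)
    rw [heven (hpar 0 (by rw [this]; simp))]; simp
  · have : σ t = t + v := mul_left_cancel₀ h2 (by rw [hσt]; simp; ring)
    rw [hodd (hpar 1 (by rw [this]; simp))]; simp
  · have : σ t = -(t + v) := mul_left_cancel₀ h2 (by rw [hσt]; simp; ring)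
    rw [hodd (hpar 1 (by rw [this, map_neg, ← neg_one_mul, hm1]; simp))]; simp
  · have : σ t = -t := mul_left_cancel₀ h2 (by rw [hσt]; simp)
    rw [heven (hpar 0 (by rw [this, map_neg, ← neg_one_mul, hm1]; simp))]; simp

omit [CharP K 2] in
lemma lift_roots (red : R →+* K) (σ : R →+* R) (φ : K → K) (hσ : ∀ x, red (σ x) = φ (red x))
    (hens : ∀ f : R[X], f.Monic → ∀ a : K, (f.map red).eval a = 0 →
      (derivative (f.map red)).eval a ≠ 0 → ∃ α, f.IsRoot α ∧ red α = a)
    {n : ℕ} (f : R[X]) (hf : f.Monic) (hfσ : f.map σ = f) (a : Fin n → K)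
    (π : Equiv.Perm (Fin n)) (ha : Function.Injective a) (hfa : f.map red = ∏ i, (X - C (a i)))
    (hπ : ∀ i, a (π i) = φ (a i)) :
    ∃ α : Fin n → R, f = ∏ i, (X - C (α i)) ∧ (∀ i, red (α i) = a i) ∧
      σ (del α) = ((Equiv.Perm.sign π : ℤ) : R) * del α := by
  have hex : ∀ i, ∃ α, f.IsRoot α ∧ red α = a i := by
    intro i
    refine hens f hf (a i) ?_ ?_
    · rw [hfa, eval_prod]; exact Finset.prod_eq_zero (mem_univ i) (by simp)
    · rw [hfa, eval_deriv_prod]
      refine Finset.prod_ne_zero_iff.2 fun j hj => sub_ne_zero.2 fun h => ?_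
      exact (mem_erase.1 hj).1 (ha h).symm
  choose α hα hαa using hex
  have hinj : Function.Injective α := fun i j h => ha (by rw [← hαa, ← hαa, h])
  have hn : f.natDegree = n := by rw [← hf.natDegree_map red, hfa, natDegree_prodX]
  have hprod := eq_prod_of_roots f hf hn α hinj hα
  refine ⟨α, hprod, hαa, ?_⟩
  rw [del_map, ← del_perm]
  congr 1
  funext i
  have h1 : f.eval (σ (α i)) = 0 := by
    conv_lhs => rw [← hfσ]
    rw [eval_map, eval₂_at_apply, hα i, map_zero]
  rw [hprod, eval_prod, Finset.prod_eq_zero_iff] at h1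
  obtain ⟨l, -, hl⟩ := h1
  simp only [eval_sub, eval_X, eval_C, sub_eq_zero] at hl
  have h2 : a l = a (π i) := by rw [hπ, ← hαa l, ← hl, hσ, hαa]
  rw [hl, ha h2]

lemma core_abstract (red : R →+* K) (hker : ∀ x, red x = 0 → 2 ∣ x) (h2 : (2 : R) ≠ 0)
    (σ : R →+* R) (s : ℕ) (hσ : ∀ x, red (σ x) = red x ^ 2 ^ s)
    (hens : ∀ f : R[X], f.Monic → ∀ a : K, (f.map red).eval a = 0 →
      (derivative (f.map red)).eval a ≠ 0 → ∃ α, f.IsRoot α ∧ red α = a)
    (G E w k : R[X]) (g e : ℕ) (hgdef : g = G.natDegree) (hedef : e = E.natDegree)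
    (hG : G.Monic) (hE : E.Monic) (hGσ : G.map σ = G) (hEσ : E.map σ = E)
    (hwσ : w.map σ = w) (hkσ : k.map σ = k) (hg : 0 < g)
    (hwd : 2 * w.natDegree ≤ g - 1)
    (hw : (derivative G).map red = (w.map red) ^ 2)
    (hdeg : 4 * k.natDegree + g ≤ 4 * e + 1)
    (a : Fin g → K) (π : Equiv.Perm (Fin g)) (ha : Function.Injective a)
    (hGa : G.map red = ∏ i, (X - C (a i))) (hπ : ∀ i, a (π i) = a i ^ 2 ^ s)
    (b : Fin (g + 4 * e) → K)
    (ρ : Equiv.Perm (Fin (g + 4 * e))) (hb : Function.Injective b)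
    (hFb : ((w * k) ^ 4 + G * E ^ 4).map red = ∏ i, (X - C (b i)))
    (hρ : ∀ i, b (ρ i) = b i ^ 2 ^ s) :
    Equiv.Perm.sign ρ * Equiv.Perm.sign π = (-1) ^ (s * e) := by
  have hK : (2 : K) = 0 := two_eq_zero'
  have h4 : (4 : R) ≠ 0 := by
    have := mul_ne_zero h2 h2
    norm_num at this
    exact this
  set B := w * k with hB
  set P := B ^ 4 + G * E ^ 4 with hP
  have hHm : (G * E ^ 4).Monic := hG.mul (hE.pow 4)
  have hHn : (G * E ^ 4).natDegree = g + 4 * e := by
    rw [hG.natDegree_mul (hE.pow 4), hE.natDegree_pow, hgdef, hedef]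
  have hBn : (B ^ 4).natDegree < g + 4 * e := by
    have h1 : (B ^ 4).natDegree ≤ 4 * (w.natDegree + k.natDegree) :=
      natDegree_pow_le_of_le 4 natDegree_mul_le
    omega
  have hPm : P.Monic := by
    rw [hP]
    exact hHm.add_of_right (degree_lt_degree (by rw [hHn]; exact hBn))
  have hPn : P.natDegree = g + 4 * e := by
    rw [hP, natDegree_add_eq_right_of_natDegree_lt (by rw [hHn]; exact hBn), hHn]
  have hPσ : P.map σ = P := by
    simp only [hP, hB, Polynomial.map_add, Polynomial.map_mul, Polynomial.map_pow, hGσ, hEσ,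
      hwσ, hkσ]
  obtain ⟨γ, hGγ, hγ, hδG⟩ := lift_roots red σ (fun x => x ^ 2 ^ s) hσ hens G hG hGσ a π ha hGa hπ
  obtain ⟨α, hPα, hα, hδP⟩ := lift_roots red σ (fun x => x ^ 2 ^ s) hσ hens P hPm hPσ b ρ hb hFb hρ
  have hG' : (derivative G).natDegree ≤ g - 1 := hgdef ▸ natDegree_derivative_le G
  -- the square root of the derivative
  obtain ⟨z, hz⟩ : C (2 : R) ∣ w ^ 2 - derivative G := by
    rw [C_dvd_iff_dvd_coeff]
    intro i
    apply hker
    rw [← coeff_map, Polynomial.map_sub, hw, Polynomial.map_pow, sub_self, coeff_zero]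
  have hzd : z.natDegree ≤ g - 1 := by
    rw [← natDegree_C_mul (p := z) h2, ← hz]
    refine (natDegree_sub_le _ _).trans (max_le ?_ hG')
    exact (natDegree_pow_le).trans hwd
  have hsplit : P = (G * E ^ 4 + C 4 * (z ^ 2 * k ^ 4)) +
      derivative G * (k ^ 4 * (derivative G + C 4 * z)) := by
    have h1 : w ^ 2 = derivative G + 2 * z := by
      have : C (2 : R) = 2 := rfl
      rw [this] at hz
      linear_combination hz
    have h3 : C (4 : R) = 4 := rfl
    rw [hP, hB, h3, mul_pow, show w ^ 4 = (w ^ 2) ^ 2 by ring, h1]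
    ring
  have hk4 : (k ^ 4).natDegree ≤ 4 * k.natDegree := natDegree_pow_le
  have hres1 : resultant P (derivative G) (g + 4 * e) (g - 1) =
      resultant (G * E ^ 4 + C 4 * (z ^ 2 * k ^ 4)) (derivative G) (g + 4 * e) (g - 1) := by
    conv_lhs => rw [hsplit]
    refine resultant_add_mul_left _ _ _ _ _ ?_ hG'
    have h1 : (derivative G + C 4 * z).natDegree ≤ g - 1 :=
      (natDegree_add_le _ _).trans (max_le hG' ((natDegree_C_mul_le _ _).trans hzd))
    have h3 : (k ^ 4 * (derivative G + C 4 * z)).natDegree ≤ 4 * k.natDegree + (g - 1) :=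
      natDegree_mul_le.trans (add_le_add hk4 h1)
    omega
  obtain ⟨z₁, hz₁⟩ := res_add_four red hker (G * E ^ 4) (z ^ 2 * k ^ 4) (derivative G) (w.map red)
    (g + 4 * e) (g - 1) (by rw [← hHn]; exact hHm.coeff_natDegree) hHn.le (by
      have h1 : (z ^ 2).natDegree ≤ 2 * (g - 1) := natDegree_pow_le_of_le 2 hzd
      have h3 : (z ^ 2 * k ^ 4).natDegree ≤ 2 * (g - 1) + 4 * k.natDegree :=
        natDegree_mul_le.trans (add_le_add h1 hk4)
      omega) hG' hw
  have hres2 := res_mul_pow G E (derivative G) hE (g - 1) hG'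
  rw [← hgdef, ← hedef] at hres2
  have hRG : resultant G (derivative G) g (g - 1) = (-1) ^ (g.choose 2) * del γ ^ 2 := by
    have h1 := res_prod γ (derivative G) (g - 1) hG'
    rw [← hGγ] at h1
    rw [h1, ← prod_eval_deriv, ← hGγ]
  have hNG : ∏ i, (derivative G).eval (α i) = resultant P (derivative G) (g + 4 * e) (g - 1) := by
    have h1 := res_prod α (derivative G) (g - 1) hG'
    rw [← hPα] at h1
    exact h1.symm
  have hNE : ∏ i, E.eval (α i) = resultant P E (g + 4 * e) e := by
    have h1 := res_prod α E e hedef.ge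
    rw [← hPα] at h1
    exact h1.symm
  set RE := resultant E (derivative G) e (g - 1) with hRE
  set NE := resultant P E (g + 4 * e) e with hNEdef
  have hREσ : σ RE = RE := by
    rw [hRE, ← resultant_map_map, ← derivative_map, hEσ, hGσ]
  have hNEσ : σ NE = NE := by
    rw [hNEdef, ← resultant_map_map, hEσ, hPσ]
  -- the derivative of `P`
  set g₁ := B ^ 3 * derivative B + G * E ^ 3 * derivative E with hg₁
  have hP' : derivative P = derivative G * E ^ 4 + C 4 * g₁ := by
    have h3 : C (4 : R) = 4 := rfl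
    rw [hP, hg₁, h3]
    simp only [derivative_add, derivative_mul, derivative_pow]
    have h5 : C ((4 : ℕ) : R) = 4 := by simp [h3]
    rw [h5]
    ring
  have hE4 : (E ^ 4).natDegree = 4 * e := hedef ▸ hE.natDegree_pow 4
  have hUd : (derivative G * E ^ 4).natDegree ≤ g - 1 + 4 * e :=
    natDegree_mul_le.trans (add_le_add hG' hE4.le)
  have hP'd : (derivative P).natDegree ≤ g - 1 + 4 * e := by
    have := natDegree_derivative_le P
    omega
  have hg₁d : g₁.natDegree ≤ g - 1 + 4 * e := by
    rw [← natDegree_C_mul (p := g₁) h4,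
      show C 4 * g₁ = derivative P - derivative G * E ^ 4 by rw [hP']; ring]
    exact (natDegree_sub_le _ _).trans (max_le hP'd hUd)
  have hg₁c : g₁.coeff (g - 1 + 4 * e) = e := by
    have h1 := congrArg (fun Q => coeff Q (g - 1 + 4 * e)) hP'
    simp only [coeff_add, coeff_C_mul] at h1
    rw [coeff_mul_add_eq_of_natDegree_le hG' hE4.le, coeff_derivative, coeff_derivative,
      show g - 1 + 4 * e + 1 = P.natDegree by omega, hPm.coeff_natDegree,
      show g - 1 + 1 = G.natDegree by omega, hG.coeff_natDegree, ← hE4,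
      (hE.pow 4).coeff_natDegree, hE4] at h1
    apply mul_left_cancel₀ h4
    push_cast at h1
    linear_combination -h1
  obtain ⟨z₂, hz₂⟩ := prod_add_four (fun i => (derivative G * E ^ 4).eval (α i))
    (fun i => g₁.eval (α i))
  have hmain : ∏ i, ((derivative G * E ^ 4).eval (α i) + 4 * g₁.eval (α i)) =
      (-1) ^ (g.choose 2) * del α ^ 2 := by
    rw [← neg_one_pow_choose g e, ← prod_eval_deriv, ← hPα, hP']
    simp
  have hPU : ∏ i, (derivative G * E ^ 4).eval (α i) =
      ((-1) ^ (g.choose 2) * del γ ^ 2 * RE ^ 4 + 8 * z₁) * NE ^ 4 := by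
    simp only [eval_mul, eval_pow, Finset.prod_mul_distrib, Finset.prod_pow]
    rw [hNG, hNE, hres1, hz₁, hres2, hRG]
  set S := ∑ i, (∏ l ∈ univ.erase i, (derivative G * E ^ 4).eval (α l)) * g₁.eval (α i) with hS
  set η : R := (-1) ^ (g.choose 2) with hη
  have hη2 : η * η = 1 := by rw [hη, ← mul_pow]; simp
  have hηr : red η = 1 := by
    have hm1 : (-1 : K) = 1 := by linear_combination -hK
    rw [hη, map_pow, map_neg, map_one, hm1, one_pow]
  have hredU : ∀ l, red ((derivative G * E ^ 4).eval (α l)) = ∏ j ∈ univ.erase l, (b l - b j) := by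
    intro l
    rw [← eval_deriv_prod, ← hFb, derivative_map, hP', ← hα l, eval_map, eval₂_at_apply]
    rw [eval_add, eval_C_mul, map_add, map_mul red 4, map_ofNat]
    linear_combination (-2 * red (eval (α l) g₁)) * hK
  have hUne : ∀ l, ∏ j ∈ univ.erase l, (b l - b j) ≠ 0 := fun l =>
    Finset.prod_ne_zero_iff.2 fun j hj => sub_ne_zero.2 fun h => (mem_erase.1 hj).1 (hb h).symm
  have hdel : red (del α) = del b := by rw [del_map]; simp only [hα]
  have hprodU : ∏ l, ∏ j ∈ univ.erase l, (b l - b j) = del b ^ 2 := by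
    have hm1 : (-1 : K) = 1 := by linear_combination -hK
    have h1 := prod_eval_deriv b
    simp only [eval_deriv_prod, hm1, one_pow, one_mul] at h1
    exact h1
  have hSred : red S = del b ^ 2 * e := by
    have h1 := Lagrange.coeff_eq_sum (s := univ) (v := b) hb.injOn (P := g₁.map red) (by
      rw [card_univ, Fintype.card_fin]
      refine (degree_le_of_natDegree_le (natDegree_map_le.trans hg₁d)).trans_lt ?_
      exact_mod_cast (by omega : g - 1 + 4 * e < g + 4 * e))
    rw [card_univ, Fintype.card_fin, show g + 4 * e - 1 = g - 1 + 4 * e by omega, coeff_map, hg₁c,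
      map_natCast] at h1
    rw [h1, ← hprodU, Finset.mul_sum, hS, map_sum]
    refine Finset.sum_congr rfl fun i _ => ?_
    rw [map_mul, map_prod, ← Finset.mul_prod_erase univ _ (mem_univ i), ← hα i, eval_map,
      eval₂_at_apply, hα i]
    simp only [hredU]
    field_simp [hUne i]
  refine sign_final red hker h2 σ s hσ (del α) (del γ * RE ^ 2 * NE ^ 2) (η * S)
    (η * (z₁ * NE ^ 4 + 2 * z₂)) _ _ e hδP ?_ ?_ ?_ ?_
  · rw [map_mul, map_mul, map_pow, map_pow, hδG, hREσ, hNEσ]; ring
  · rw [hmain, hPU] at hz₂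
    linear_combination η * hz₂ + ((del γ * RE ^ 2 * NE ^ 2) ^ 2 - del α ^ 2) * hη2
  · rw [map_mul, hηr, one_mul, hSred, hdel]
  · rw [hdel]; exact del_ne_zero hb

end abstract

section witt
variable {F : Type*} [Field F] [Finite F] [CharP F 2]

/-- In characteristic two, with `q = 2 ^ s`: if the derivative of `G` is the square of a divisor
of `B`, the signs of Frobenius on the roots of `B ^ 4 + G * E ^ 4` and of `G` differ by
`(-1) ^ (s * deg E)`. -/
theorem core_even (s : ℕ) (hs : Nat.card F = 2 ^ s) (G E w k : F[X]) (g n : ℕ) (ε₁ ε₂ : ℤˣ)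
    (hG : G.Monic) (hE : E.Monic) (hg : 0 < g) (hw : derivative G = w ^ 2)
    (hdeg : 4 * k.natDegree + g ≤ 4 * E.natDegree + 1)
    (h₂ : FrobSign F G g ε₂) (h₁ : FrobSign F ((w * k) ^ 4 + G * E ^ 4) n ε₁)
    (hn : n = g + 4 * E.natDegree) :
    ε₁ * ε₂ = (-1) ^ (s * E.natDegree) := by
  subst hn
  have hgG := h₂.natDegree_eq
  obtain ⟨a, π, ha, hGa, hπ, rfl⟩ := h₂
  obtain ⟨b, ρ, hb, hFb, hρ, rfl⟩ := h₁
  have : Fact (Nat.Prime 2) := ⟨Nat.prime_two⟩
  let red : WittVector 2 (AlgebraicClosure F) →+* (AlgebraicClosure F) := WittVector.constantCoeff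
  let σ : WittVector 2 (AlgebraicClosure F) →+* WittVector 2 (AlgebraicClosure F) := WittVector.map (frob F)
  let ι : WittVector 2 F →+* WittVector 2 (AlgebraicClosure F) := WittVector.map (algebraMap F (AlgebraicClosure F))
  have hker : ∀ x, red x = 0 → 2 ∣ x := by
    intro x hx
    have h1 : x ∈ RingHom.ker red := hx
    rw [WittVector.ker_constantCoeff, Ideal.mem_span_singleton] at h1
    exact_mod_cast h1
  have h2 : (2 : WittVector 2 (AlgebraicClosure F)) ≠ 0 := by
    have := WittVector.p_nonzero 2 (AlgebraicClosure F)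
    exact_mod_cast this
  have hσ : ∀ x, red (σ x) = red x ^ 2 ^ s := by
    intro x
    rw [← hs, ← frob_apply]
    rfl
  have hσι : σ.comp ι = ι := by
    ext x n
    simp [σ, ι, frob_algebraMap]
  have hredι : red.comp ι = (algebraMap F (AlgebraicClosure F)).comp WittVector.constantCoeff := by
    ext x
    rfl
  have hens : ∀ f : (WittVector 2 (AlgebraicClosure F))[X], f.Monic → ∀ a : (AlgebraicClosure F), (f.map red).eval a = 0 →
      (derivative (f.map red)).eval a ≠ 0 → ∃ α, f.IsRoot α ∧ red α = a := by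
    intro f hf a h0 h1
    obtain ⟨a₀, rfl⟩ := WittVector.constantCoeff_surjective 2 a
    have hI := (IsAdicComplete.henselianRing (WittVector 2 (AlgebraicClosure F))
      (Ideal.span {((2 : ℕ) : WittVector 2 (AlgebraicClosure F))})).is_henselian f hf a₀
    rw [← WittVector.ker_constantCoeff] at hI
    rw [derivative_map] at h1
    rw [eval_map, eval₂_at_apply] at h0 h1
    obtain ⟨α, hα, hα'⟩ := hI h0
      ((WittVector.isUnit_of_coeff_zero_ne_zero _ h1).map _)
    refine ⟨α, hα, ?_⟩
    have h3 : red (α - a₀) = 0 := hα'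
    rw [map_sub, sub_eq_zero] at h3
    exact h3
  have hlift : ∀ p : F[X], ∃ P : (WittVector 2 (AlgebraicClosure F))[X], P.map red = p.map (algebraMap F (AlgebraicClosure F)) ∧
      P.map σ = P ∧ P.natDegree = p.natDegree ∧ (p.Monic → P.Monic) := by
    intro p
    have hsurj := Polynomial.map_surjective _ (WittVector.constantCoeff_surjective (R := F) 2) p
    have hinj : Function.Injective ι := WittVector.map_injective _ (algebraMap F (AlgebraicClosure F)).injective
    have key : ∃ Q : (WittVector 2 F)[X], Q.map WittVector.constantCoeff = p ∧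
        Q.natDegree = p.natDegree ∧ (p.Monic → Q.Monic) := by
      by_cases hp : p.Monic
      · obtain ⟨Q, h1, h2, h3⟩ := lifts_and_natDegree_eq_and_monic hsurj hp
        exact ⟨Q, h1, h2, fun _ => h3⟩
      · obtain ⟨Q, h1, h2⟩ := exists_natDegree_eq_of_mem_lifts hsurj
        exact ⟨Q, h1, h2, fun h => absurd h hp⟩
    obtain ⟨Q, h1, h2, h3⟩ := key
    refine ⟨Q.map ι, ?_, ?_, ?_, fun h => (h3 h).map _⟩
    · rw [Polynomial.map_map, hredι, ← Polynomial.map_map, h1]
    · rw [Polynomial.map_map, hσι]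
    · rw [natDegree_map_eq_of_injective hinj, h2]
  obtain ⟨G', hG1, hG2, hG3, hG4⟩ := hlift G
  obtain ⟨E', hE1, hE2, hE3, hE4⟩ := hlift E
  obtain ⟨w', hw1, hw2, hw3, -⟩ := hlift w
  obtain ⟨k', hk1, hk2, hk3, -⟩ := hlift k
  refine core_abstract red hker h2 σ s hσ hens G' E' w' k' g E.natDegree (by rw [hG3, hgG])
    hE3.symm (hG4 hG) (hE4 hE) hG2 hE2 hw2 hk2 hg ?_ ?_ (by rw [hk3]; exact hdeg) a π ha
    (by rw [hG1, hGa]) (fun i => by rw [hπ, hs]) b ρ hb ?_ (fun i => by rw [hρ, hs])
  · have h1 := natDegree_derivative_le G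
    rw [hw, natDegree_pow, hgG] at h1
    rw [hw3]; exact h1
  · rw [← derivative_map, hG1, hw1, derivative_map, hw, Polynomial.map_pow]
  · rw [← hFb]
    simp only [Polynomial.map_add, Polynomial.map_mul, Polynomial.map_pow, hG1, hE1, hw1, hk1]

end witt

end Pool.Agent.Lib.MP_458f0b_nt.FF
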