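import Mathlib

/-! Vandermonde products, resultants and the sign of Frobenius on the roots of a polynomial. -/

open Polynomial Finset

namespace Pool.Agent.Lib.MP_458f0b_nt.FF

section ring
variable {R S : Type*} [CommRing R] [CommRing S]

/-- the product of the differences -/
noncomputable def del {n : ℕ} (a : Fin n → R) : R := ∏ i, ∏ j ∈ Finset.Ioi i, (a j - a i)

lemma del_map {n : ℕ} (σ : R →+* S) (a : Fin n → R) : σ (del a) = del (fun i => σ (a i)) := by
  simp [del, map_prod]

lemma del_perm {n : ℕ} (a : Fin n → R) (π : Equiv.Perm (Fin n)) :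
    del (fun i => a (π i)) = ((Equiv.Perm.sign π : ℤ) : R) * del a := by
  unfold del
  exact π.prod_Ioi_comp_eq_sign_mul_prod (f := fun i j => a j - a i) (by intro i j; ring)

lemma eval_deriv_prod {n : ℕ} (a : Fin n → R) (i : Fin n) :
    (derivative (∏ j, (X - C (a j)))).eval (a i) = ∏ j ∈ univ.erase i, (a i - a j) := by
  have := Lagrange.eval_nodal_derivative_eval_node_eq (s := univ) (v := a) (i := i) (mem_univ i)
  simpa [Lagrange.nodal, eval_prod] using this

lemma sum_card_Ioi (n : ℕ) : ∑ i : Fin n, (Finset.Ioi i).card = n.choose 2 := by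
  simp only [Fin.card_Ioi]
  rw [Fin.sum_univ_eq_sum_range (fun i => n - 1 - i) n, Finset.sum_range_reflect (fun i => i) n,
    Finset.sum_range_id, Nat.choose_two_right]

lemma prod_eval_deriv {n : ℕ} (a : Fin n → R) :
    ∏ i, (derivative (∏ j, (X - C (a j)))).eval (a i) = (-1) ^ (n.choose 2) * del a ^ 2 := by
  simp_rw [eval_deriv_prod]
  have h := prod_prod_Ioi_mul_eq_prod_prod_off_diag (fun j i : Fin n => a i - a j)
  have h2 : ∀ i : Fin n, (univ.erase i) = ({i}ᶜ : Finset (Fin n)) := by
    intro i; ext j; simp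
  simp_rw [h2]
  rw [← h, ← sum_card_Ioi, ← Finset.prod_pow_eq_pow_sum, del, ← Finset.prod_pow,
    ← Finset.prod_mul_distrib]
  refine Finset.prod_congr rfl fun i _ => ?_
  rw [← Finset.prod_pow, ← Finset.prod_const, ← Finset.prod_mul_distrib]
  refine Finset.prod_congr rfl fun j _ => ?_
  ring

lemma monic_prodX {n : ℕ} (a : Fin n → R) : (∏ j, (X - C (a j))).Monic :=
  monic_prod_of_monic _ _ fun j _ => monic_X_sub_C (a j)

lemma natDegree_prodX [Nontrivial R] {n : ℕ} (a : Fin n → R) :
    (∏ j, (X - C (a j))).natDegree = n := by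
  rw [natDegree_prod_of_monic _ _ fun j _ => monic_X_sub_C (a j)]
  simp

lemma res_prod [Nontrivial R] {n : ℕ} (a : Fin n → R) (g : R[X]) (m : ℕ)
    (hg : g.natDegree ≤ m) :
    resultant (∏ j, (X - C (a j))) g n m = ∏ i, g.eval (a i) := by
  have h := resultant_prod_left univ (fun j => X - C (a j)) g m (by simp) hg
  rw [natDegree_prodX] at h
  rw [h]
  refine Finset.prod_congr rfl fun i _ => ?_
  rw [natDegree_X_sub_C, resultant_X_sub_C_left _ _ _ hg]

lemma neg_one_pow_choose (g e : ℕ) :
    (-1 : R) ^ ((g + 4 * e).choose 2) = (-1) ^ (g.choose 2) := by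
  induction e with
  | zero => simp
  | succ e ih =>
    have h : ∀ m : ℕ, (m + 1).choose 2 = m.choose 2 + m := by
      intro m; rw [Nat.choose_succ_succ' m 1]; simp [add_comm]
    have : (g + 4 * (e + 1)).choose 2 = (g + 4 * e).choose 2 + 2 * (2 * (g + 4 * e) + 3) := by
      rw [show g + 4 * (e + 1) = g + 4 * e + 1 + 1 + 1 + 1 by ring, h, h, h, h]; ring
    rw [this, pow_add, ih, pow_mul]; simp

lemma del_ne_zero [IsDomain R] {n : ℕ} {a : Fin n → R} (ha : Function.Injective a) :
    del a ≠ 0 := by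
  unfold del
  refine Finset.prod_ne_zero_iff.2 fun i _ => Finset.prod_ne_zero_iff.2 fun j hj => ?_
  rw [sub_ne_zero]
  intro h
  have := ha h
  rw [mem_Ioi] at hj
  exact hj.ne' this

/-- The resultant with a multiple `G * E ^ 4` of `G`. -/
lemma res_mul_pow [Nontrivial R] (G E U : R[X]) (hE : E.Monic) (m : ℕ)
    (hU : U.natDegree ≤ m) :
    resultant (G * E ^ 4) U (G.natDegree + 4 * E.natDegree) m =
      resultant G U G.natDegree m * resultant E U E.natDegree m ^ 4 := by
  have h1 := resultant_mul_left G (E ^ 4) U m hU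
  have h2 := resultant_pow_left (f := E) (g := U) (m := 4) (n := m) (by simp [hE.leadingCoeff]) hU
  rw [h2, hE.natDegree_pow] at h1
  exact h1

end ring

section field
variable (F : Type*) [Field F] [Finite F]

/-- `f` has `n` distinct roots in the algebraic closure, and the `q`-th power map permutes them
with sign `ε`. -/
def FrobSign (f : F[X]) (n : ℕ) (ε : ℤˣ) : Prop :=
  ∃ (a : Fin n → AlgebraicClosure F) (π : Equiv.Perm (Fin n)), Function.Injective a ∧
    f.map (algebraMap F (AlgebraicClosure F)) = ∏ i, (X - C (a i)) ∧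
    (∀ i, a (π i) = a i ^ Nat.card F) ∧ Equiv.Perm.sign π = ε

variable {F}

/-- the `q`-th power map of the algebraic closure -/
noncomputable def frob (F : Type*) [Field F] [Finite F] :
    AlgebraicClosure F →+* AlgebraicClosure F :=
  letI := Fintype.ofFinite F
  (FiniteField.frobeniusAlgHom F (AlgebraicClosure F) :
    AlgebraicClosure F →ₐ[F] AlgebraicClosure F)

lemma frob_apply (x : AlgebraicClosure F) : frob F x = x ^ Nat.card F := by
  letI := Fintype.ofFinite F
  simp [frob, Nat.card_eq_fintype_card]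

lemma frob_algebraMap (c : F) :
    frob F (algebraMap F (AlgebraicClosure F) c) = algebraMap F (AlgebraicClosure F) c := by
  letI := Fintype.ofFinite F
  rw [frob_apply, ← map_pow, Nat.card_eq_fintype_card, FiniteField.pow_card]

lemma frob_comp : (frob F).comp (algebraMap F (AlgebraicClosure F)) =
    algebraMap F (AlgebraicClosure F) := RingHom.ext frob_algebraMap

lemma eq_prod_of_roots {R : Type*} [CommRing R] [IsDomain R] {n : ℕ} (f : R[X]) (hf : f.Monic)
    (hn : f.natDegree = n) (a : Fin n → R) (ha : Function.Injective a)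
    (hr : ∀ i, f.IsRoot (a i)) : f = ∏ i, (X - C (a i)) := by
  classical
  have hdvd : (∏ i, (X - C (a i))) ∣ f := by
    have h1 : (Multiset.map a univ.val) ≤ f.roots := by
      rw [Multiset.le_iff_subset (Multiset.Nodup.map ha univ.nodup)]
      intro x hx
      obtain ⟨i, -, rfl⟩ := Multiset.mem_map.1 hx
      exact (mem_roots hf.ne_zero).2 (hr i)
    have h2 := (Multiset.prod_X_sub_C_dvd_iff_le_roots hf.ne_zero _).2 h1
    rw [Multiset.map_map] at h2
    exact h2
  exact (eq_of_monic_of_dvd_of_natDegree_le (monic_prodX a) hf hdvd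
    (by rw [natDegree_prodX, hn]))

lemma frobSign_irreducible {f : F[X]} (hf : f.Monic) (hi : Irreducible f) :
    FrobSign F f f.natDegree ((-1) ^ (f.natDegree - 1)) := by
  set K := AlgebraicClosure F
  set q := Nat.card F with hq
  have hpos : 0 < f.natDegree := hi.natDegree_pos
  obtain ⟨α, hα⟩ : ∃ α : K, aeval α f = 0 := by
    obtain ⟨α, hα⟩ := IsAlgClosed.exists_aeval_eq_zero K f (by
      rw [degree_eq_natDegree hf.ne_zero]; exact_mod_cast hpos.ne')
    exact ⟨α, hα⟩
  have key : ∀ i : ℕ, α ^ q ^ i = α ↔ f.natDegree ∣ i := by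
    intro i
    rw [hi.natDegree_dvd_iff_dvd_X_pow_card_pow_sub_X, ← hi.dvd_iff_aeval_eq_zero hα]
    simp [sub_eq_zero, hq]
  have hit : ∀ (i : ℕ) (x : K), (frob F)^[i] x = x ^ q ^ i := by
    intro i
    induction i with
    | zero => simp
    | succ i ih => intro x; rw [Function.iterate_succ_apply', ih, frob_apply, ← pow_mul, pow_succ]
  have hroot : ∀ i : ℕ, aeval (α ^ q ^ i) f = 0 := by
    intro i
    induction i with
    | zero => simpa using hα
    | succ i ih =>
      have h1 : α ^ q ^ (i + 1) = frob F (α ^ q ^ i) := by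
        rw [frob_apply, ← pow_mul, pow_succ]
      rw [h1, aeval_def, ← frob_comp, ← hom_eval₂, ← aeval_def, ih, map_zero]
  have hinj : ∀ i j : ℕ, i < j → j < f.natDegree → α ^ q ^ i ≠ α ^ q ^ j := by
    intro i j hij hj h
    obtain ⟨d, rfl⟩ := Nat.exists_eq_add_of_lt hij
    have h1 : (frob F)^[i] α = (frob F)^[i] (α ^ q ^ (d + 1)) := by
      rw [hit, hit, h, ← pow_mul, ← pow_add]; congr 2; ring
    have h2 := ((frob F).injective.iterate i) h1
    have h3 := Nat.le_of_dvd (Nat.succ_pos d) ((key (d + 1)).1 h2.symm)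
    omega
  obtain ⟨n, hn⟩ : ∃ n, f.natDegree = n + 1 := ⟨f.natDegree - 1, by omega⟩
  rw [hn]
  have ha : Function.Injective (fun i : Fin (n + 1) => α ^ q ^ (i : ℕ)) := by
    intro i j h
    rcases lt_trichotomy (i : ℕ) j with h1 | h1 | h1
    · exact absurd h (hinj i j h1 (by have := j.2; omega))
    · exact Fin.ext h1
    · exact absurd h.symm (hinj j i h1 (by have := i.2; omega))
  refine ⟨fun i => α ^ q ^ (i : ℕ), finRotate (n + 1), ha, ?_, ?_, sign_finRotate _⟩
  · refine eq_prod_of_roots _ (hf.map _) (by rw [hf.natDegree_map, hn]) _ ha fun i => ?_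
    rw [IsRoot.def, eval_map_algebraMap]
    exact hroot i
  · intro i
    rw [← pow_mul, ← pow_succ]
    refine Fin.lastCases ?_ (fun i => ?_) i
    · rw [finRotate_last]
      simp only [Fin.val_zero, pow_zero, pow_one, Fin.val_last]
      exact ((key (n + 1)).2 (by rw [hn])).symm
    · have : finRotate (n + 1) i.castSucc = i.succ := by
        rw [finRotate_apply, Fin.coeSucc_eq_succ]
      rw [this]; simp

lemma FrobSign.X_mul {f : F[X]} {n : ℕ} {ε : ℤˣ} (h : FrobSign F f n ε) (h0 : f.coeff 0 ≠ 0) :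
    FrobSign F (X * f) (n + 1) ε := by
  obtain ⟨a, π, ha, hf, hπ, hs⟩ := h
  have hne : ∀ i, a i ≠ 0 := by
    intro i hi
    apply h0
    have h1 : (f.map (algebraMap F (AlgebraicClosure F))).eval 0 = 0 := by
      rw [hf, eval_prod]
      exact Finset.prod_eq_zero (mem_univ i) (by simp [hi])
    rw [← coeff_zero_eq_eval_zero, coeff_map] at h1
    exact (map_eq_zero _).1 h1
  refine ⟨Fin.cons 0 a, Equiv.Perm.decomposeFin.symm (0, π), ?_, ?_, ?_, by simpa using hs⟩
  · rw [Fin.cons_injective_iff]
    exact ⟨fun ⟨i, hi⟩ => hne i hi, ha⟩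
  · rw [Polynomial.map_mul, hf, Fin.prod_univ_succ]; simp
  · intro i
    refine Fin.cases ?_ (fun i => ?_) i
    · simp [Nat.card_pos.ne']
    · simp [hπ]

omit [Finite F] in
lemma FrobSign.natDegree_eq {f : F[X]} {n : ℕ} {ε : ℤˣ} (h : FrobSign F f n ε) :
    f.natDegree = n := by
  obtain ⟨a, π, -, hf, -, -⟩ := h
  rw [← natDegree_map (algebraMap F (AlgebraicClosure F)), hf, natDegree_prodX]

end field

end Pool.Agent.Lib.MP_458f0b_nt.FF
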